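import Pool.Agent.U59.DIV.B

/-!
# Hitting densities see the divergent trajectories of the `3x+1` map on the integers

For an integer `a` let `D a` be the natural density (among the integers of its sign) of the integers
whose trajectory contains `a`, and `E a` that of the integers whose trajectory merges with that of `a`.

The numbers `D a` do not tend to `0` if and only if there is a divergent trajectory; the positive limit
points of `D` are exactly the densities `E n` of the merging classes of the divergent trajectories.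
-/

set_option autoImplicit false

namespace Pool.Agent.Results.MP_ff4775_nt.DensitiesSeeDivergence

open Filter Topology Pool.Agent.U59.DIV

/-- the `3x+1` map on the integers -/
def T (x : ℤ) : ℤ := if x % 2 = 0 then x / 2 else (3 * x + 1) / 2

/-- the trajectory of `n` is divergent -/
def Divergent (n : ℤ) : Prop := Tendsto (fun k : ℕ => |T^[k] n|) atTop atTop

/-- `a` is a term of the trajectory of `x` -/
def Reaches (x a : ℤ) : Prop := ∃ k : ℕ, T^[k] x = a

/-- the trajectories of `m` and `n` merge -/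
def Merge (m n : ℤ) : Prop := ∃ i j : ℕ, T^[i] m = T^[j] n

/-- among the integers of sign `s` (`s = 1` or `s = -1`) those in `A` have the natural density `δ` -/
def HasDensity (s : ℤ) (A : Set ℤ) (δ : ℝ) : Prop :=
  Tendsto (fun N : ℕ => ({n : ℤ | 0 < s * n ∧ s * n ≤ N ∧ n ∈ A}.ncard : ℝ) / N) atTop (𝓝 δ)

/-- **Theorem.** Let `s = 1` or `s = -1`. For the integers `a` of sign `s`:
(0) the integers of sign `s` whose trajectory contains `a` have a natural density `D a`, which is
positive exactly if `3` does not divide `a`; those whose trajectory merges with that of `a` have a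
natural density `E a > 0`, and `D a ≤ E a`.
(1) For every `B` there is `K` such that `D a ≤ K / (log y) ^ B` if all integers of sign `s` whose
trajectory contains `a` are `≥ y ≥ 2` in absolute value, uniformly in `a`.
(2) Along every trajectory `D` is nondecreasing and tends to `E`.
(3) For distinct `u 0, u 1, …` the densities `D (u n)` tend to `0` if and only if the trajectory of
every integer contains only finitely many of the `u n`.
(4) For every `ε > 0` all `a` with `D a ≥ ε` but finitely many lie on at most `1 / ε` divergent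
trajectories, no two of which merge and whose merging classes have density `≥ ε`.
(5) A number `L > 0` is a limit of `D (u n)` for distinct `u n` if and only if `L = E n` for an `n`
with divergent trajectory.
(6) There is no divergent trajectory of sign `s` if and only if `D a → 0` as `|a| → ∞`. -/
theorem result (s : ℤ) (hs : s = 1 ∨ s = -1) : ∃ D E : ℤ → ℝ,
    (∀ a : ℤ, 0 < s * a → HasDensity s {x | Reaches x a} (D a) ∧ (0 < D a ↔ ¬ (3 : ℤ) ∣ a) ∧
      HasDensity s {x | Merge x a} (E a) ∧ 0 < E a ∧ D a ≤ E a) ∧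
    (∀ B : ℕ, ∃ K : ℝ, 0 < K ∧ ∀ (a : ℤ) (y : ℝ), 0 < s * a → 2 ≤ y →
      (∀ x : ℤ, 0 < s * x → Reaches x a → y ≤ |(x : ℝ)|) → D a ≤ K / (Real.log y) ^ B) ∧
    (∀ a : ℤ, 0 < s * a → Monotone (fun k : ℕ => D (T^[k] a)) ∧
      Tendsto (fun k : ℕ => D (T^[k] a)) atTop (𝓝 (E a))) ∧
    (∀ u : ℕ → ℤ, Function.Injective u → (∀ n, 0 < s * u n) →
      (Tendsto (fun n => D (u n)) atTop (𝓝 0) ↔
        ∀ x : ℤ, 0 < s * x → {n : ℕ | Reaches x (u n)}.Finite)) ∧
    (∀ ε : ℝ, 0 < ε → ∃ F R : Finset ℤ, (∀ r ∈ R, 0 < s * r ∧ Divergent r ∧ ε ≤ E r) ∧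
      (∀ r ∈ R, ∀ r' ∈ R, Merge r r' → r = r') ∧ (R.card : ℝ) * ε ≤ 1 ∧
      ∀ a : ℤ, 0 < s * a → ε ≤ D a → a ∈ F ∨ ∃ r ∈ R, Reaches r a) ∧
    (∀ L : ℝ, 0 < L → ((∃ u : ℕ → ℤ, Function.Injective u ∧ (∀ n, 0 < s * u n) ∧
        Tendsto (fun n => D (u n)) atTop (𝓝 L)) ↔ ∃ n : ℤ, 0 < s * n ∧ Divergent n ∧ E n = L)) ∧
    ((∀ n : ℤ, 0 < s * n → ¬ Divergent n) ↔
      ∀ ε : ℝ, 0 < ε → ∃ A : ℤ, ∀ a : ℤ, A < s * a → D a < ε) := by
  obtain ⟨D, hD⟩ := densities hs
  obtain ⟨E, hE, hsum⟩ := classes hs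
  have hD1 : ∀ a, HasD s (Pd a) (D a) := fun a => (hD a).1
  have hE1 : ∀ a, HasD s (Pool.Agent.H499R2.ND.Mg (Pool.Agent.H499R2.ND.Td 1) a) (E a) :=
    fun a => (hE a).1
  have hE0 : ∀ a, 0 < s * a → 0 < E a := fun a => (hE a).2
  refine ⟨D, E, fun a ha => ⟨hD1 a, ⟨fun h h3 => ?_, (hD a).2 ha⟩, hE1 a, hE0 a ha,
    D_le_E hs hD1 hE1 (Rch.refl a)⟩, fun B => ?_, fun a _ => along hs hD1 hE1 a,
    fun u hu _ => null_seq hs hD1 hE1 hE0 hu, fun ε hε => ?_, fun L hL => limits hs hD1 hE1 hsum hL,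
    dichotomy hs hD1 hE1 hE0 hsum⟩
  · have := (hD1 a).unique (D_three ha h3)
    linarith
  · obtain ⟨K, hK, h⟩ := anti_D hs B
    exact ⟨K, hK, fun a y _ hy hx => h y a (D a) hy hx (hD1 a)⟩
  · obtain ⟨F, R, h1, h2, h3⟩ := large hs hD1 hE1 hsum hε
    refine ⟨F, R, fun r hr => ⟨(h1 r hr).1.1, (h1 r hr).2⟩, fun r hr r' hr' h => ?_, h2, h3⟩
    exact Pool.Agent.H499R2.ND.rep_unique hs (h1 r hr).1 (h1 r' hr').1 h

end Pool.Agent.Results.MP_ff4775_nt.DensitiesSeeDivergence
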