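import Mathlib
import Pool.Agent.U773.PW.TrajP
import Pool.Agent.U773.SP.Div31

/-!
# Powers and smooth parts in divergent trajectories of the 3x+1 map

Let `S` be a finite set of primes and `e ≥ 1`. We consider the integers `x = u y ^ e` where `u` is
composed of the primes of `S`. For `e = 1` these are all integers, and `|y| ≤ Y` is possible if and
only if the part of `x` prime to `S` is at most `Y`; for `e = 2` (`3`, ...) they are the squares
(cubes, ...) times integers composed of the primes of `S`.

(1) The dip theorem. Let `k ≥ 1` and `ε > 0`. If more than `k ^ 2` of `x, T x, ..., T^n x` are odd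
and of the form `u y ^ e` with `|y| ≤ Y` then the trajectory comes down to
`|T^i x| ≤ C Y ^ (1 + 1 / k) exp (ε (n + log (1 + |x|)))` for some `i ≤ n`.

Let `κ < 1`, and let `P` be the set of the odd integers `x = u y ^ e` with `|y| ≤ |x| ^ κ`. For
`e = 1` these are the odd integers whose part prime to `S` is at most `|x| ^ κ`; for `e ≥ 2` and
`κ ≥ 1 / e` these are all odd integers `u y ^ e`, for example all odd squares.

(2) The mass inequality. For every integer `x` and every `n` the product of the absolute values of
the terms in `P` among the first `n` terms of the trajectory of `x` is at most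
`exp (C (n + log (1 + |x|)))`.

(3) Every divergent trajectory has at most `C (n + log (1 + |x|)) / log n` terms in `P` among its
first `n` terms.

(4) If the trajectory of `x` grows at least exponentially, `|T^k x| ≥ exp (δ k)` for all large `k`,
then for all large `n` at most `C / δ` of the terms `T^k x`, `n ≤ k < 2 n`, are in `P`: the first `n`
terms have only `O (log n)` members in `P`, and so at most `O (log n)` squares times integers
composed of the primes of `S`.

Method. Let `X_i = 2^i 3^(o(i)) x_i` with `o(i)` the number of odd terms among `x_i, ..., x_(n-1)`.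
If the terms are large then the `X_i` are nearly equal, and `X_i = a_i Z_i ^ e` with `a_i` in a
finite set and `Z_i` an integer whose part prime to `S` is at most `Y`. The subspace theorem for the
forms `a_i^(1/e) Z_i - a_0^(1/e) Z_0` gives a relation with bounded coefficients between `k + 1` of
the `Z_i`. If the indices are far apart this contradicts the powers of `2` which divide the `Z_i`;
in a window of bounded length it contradicts the linear independence of the functions
`(1 + c_i t)^(1/e)` (for `e = 1` Ridout's theorem for binary forms is used instead). For (2) every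
large term `x_i` in `P` gets a window of length `c log |x_i|`, which contains a bounded number of
such terms.
-/

set_option autoImplicit false

namespace Pool.Agent.Results.MP_ff4775_nt.PowersInTrajectories

open Finset Filter Pool.Agent.U773.SP Pool.Agent.U773.SP.C31 Pool.Agent.U773.PW

open scoped Classical

theorem result (S : Finset ℕ) (e : ℕ) (he : 1 ≤ e) :
    (∀ (k : ℕ) (ε : ℝ), 1 ≤ k → 0 < ε → ∃ C : ℝ, 0 < C ∧ ∀ (x : ℤ) (n : ℕ) (Y : ℝ),
      k ^ 2 < ((range (n + 1)).filter (fun i => T^[i] x % 2 = 1 ∧ Pw S e Y (T^[i] x))).card →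
      ∃ i ≤ n, |((T^[i] x : ℤ) : ℝ)| ^ k ≤
        C * Y ^ (k + 1) * Real.exp (ε * (n + Real.log (1 + |(x : ℝ)|)))) ∧
    (∀ κ : ℝ, 0 ≤ κ → κ < 1 → ∃ C : ℝ, 0 < C ∧
      (∀ (x : ℤ) (n : ℕ),
        ∑ i ∈ (range n).filter (fun i => T^[i] x % 2 = 1 ∧
          Pw S e (|((T^[i] x : ℤ) : ℝ)| ^ κ) (T^[i] x)), Real.log |((T^[i] x : ℤ) : ℝ)| ≤
            C * (n + Real.log (1 + |(x : ℝ)|))) ∧
      (∀ x : ℤ, Divergent x → ∀ n : ℕ, 2 ≤ n →
        (((range n).filter (fun i => T^[i] x % 2 = 1 ∧
          Pw S e (|((T^[i] x : ℤ) : ℝ)| ^ κ) (T^[i] x))).card : ℝ) ≤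
            C * (n + Real.log (1 + |(x : ℝ)|)) / Real.log n) ∧
      (∀ (x : ℤ) (δ : ℝ), 0 < δ →
        (∀ᶠ k : ℕ in atTop, Real.exp (δ * k) ≤ |((T^[k] x : ℤ) : ℝ)|) →
        ∀ᶠ n : ℕ in atTop,
          (((Ico n (2 * n)).filter (fun i => T^[i] x % 2 = 1 ∧
            Pw S e (|((T^[i] x : ℤ) : ℝ)| ^ κ) (T^[i] x))).card : ℝ) ≤ C / δ)) := by
  refine ⟨?_, ?_⟩
  · intro k ε hk hε
    obtain ⟨C, hC, h⟩ := dip_T 3 (by norm_num) S e k he hk ε hε
    refine ⟨C, by linarith, ?_⟩
    intro x n Y hcard
    obtain ⟨i, hi, h1⟩ := h 1 x n Y (by norm_num) (by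
      rw [hT]
      exact hcard.trans_le (le_of_eq (card_inst _ _ _ _)))
    rw [hT] at h1
    refine ⟨i, hi, ?_⟩
    simpa using h1
  · intro κ hκ hκ1
    obtain ⟨C, hC, h⟩ := mass_T 3 (by norm_num) S e he κ hκ hκ1
    have hmass : ∀ (x : ℤ) (n : ℕ),
        ∑ i ∈ (range n).filter (fun i => T^[i] x % 2 = 1 ∧
          Pw S e (|((T^[i] x : ℤ) : ℝ)| ^ κ) (T^[i] x)), Real.log |((T^[i] x : ℤ) : ℝ)| ≤
            C * (n + Real.log (1 + |(x : ℝ)|)) := by
      intro x n
      have h1 := h 1 x n (by norm_num)
      rw [hT] at h1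
      simpa using h1
    refine ⟨3 * C + 6, by linarith, ?_, ?_, ?_⟩
    · intro x n
      refine (hmass x n).trans ?_
      have h1 : 0 ≤ Real.log (1 + |(x : ℝ)|) := Real.log_nonneg (by linarith [abs_nonneg (x : ℝ)])
      have h2 : (0 : ℝ) ≤ n := Nat.cast_nonneg _
      gcongr
      linarith
    · intro x hx n hn
      have h1 := count_of_mass (x := fun i => T^[i] x) hn (fun i _ k _ hik => hx.inj hik)
        (filter_subset _ _) (hmass x n)
      refine h1.trans ?_
      have h2 : (0 : ℝ) < Real.log n := Real.log_pos (by exact_mod_cast hn)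
      have h3 : 0 ≤ Real.log (1 + |(x : ℝ)|) := Real.log_nonneg (by linarith [abs_nonneg (x : ℝ)])
      have h4 : (0 : ℝ) ≤ n := Nat.cast_nonneg _
      gcongr
      nlinarith
    · intro x δ hδ hx
      obtain ⟨K, hK⟩ := eventually_atTop.1 hx
      obtain ⟨X, hX⟩ : ∃ X : ℝ, X = Real.log (1 + |(x : ℝ)|) := ⟨_, rfl⟩
      have hX0 : 0 ≤ X := by rw [hX]; exact Real.log_nonneg (by linarith [abs_nonneg (x : ℝ)])
      obtain ⟨K', hK'⟩ := exists_nat_gt X
      filter_upwards [eventually_ge_atTop (max (max K K') 1)] with n hn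
      have hn1 : K ≤ n := (le_max_left _ _).trans ((le_max_left _ _).trans hn)
      have hn2 : (K' : ℝ) ≤ n := by
        exact_mod_cast (le_max_right _ _).trans ((le_max_left _ _).trans hn)
      have hn3 : (1 : ℝ) ≤ n := by exact_mod_cast (le_max_right _ _).trans hn
      have h1 := hmass x (2 * n)
      rw [← hX] at h1
      set J := (Ico n (2 * n)).filter (fun i => T^[i] x % 2 = 1 ∧
            Pw S e (|((T^[i] x : ℤ) : ℝ)| ^ κ) (T^[i] x)) with hJ
      have h2 : ∑ i ∈ J, Real.log |((T^[i] x : ℤ) : ℝ)| ≤ 3 * C * n := by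
        refine (Finset.sum_le_sum_of_subset_of_nonneg ?_ ?_).trans (h1.trans ?_)
        · intro i hi
          rw [hJ, mem_filter, mem_Ico] at hi
          rw [mem_filter, mem_range]
          exact ⟨hi.1.2, hi.2⟩
        · intro i _ _
          exact log_int_nonneg _
        · push_cast
          have : C * X ≤ C * n := by
            have : X ≤ n := by linarith
            gcongr
          linarith
      have h3 := card_of_mass (J := J) (w := fun i => Real.log |((T^[i] x : ℤ) : ℝ)|)
        (t := δ * n) (M := 3 * C * n) (by positivity) (by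
          intro i hi
          rw [hJ, mem_filter, mem_Ico] at hi
          have h4 := hK i (hn1.trans hi.1.1)
          have h5 := Real.log_le_log (Real.exp_pos _) h4
          rw [Real.log_exp] at h5
          refine le_trans ?_ h5
          have : (n : ℝ) ≤ i := by exact_mod_cast hi.1.1
          gcongr) h2
      refine h3.trans ?_
      rw [div_le_div_iff₀ (by positivity) hδ]
      have h6 : 0 ≤ δ * n := by positivity
      nlinarith

end Pool.Agent.Results.MP_ff4775_nt.PowersInTrajectories
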