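import Mathlib
import Pool.Agent.U773.SP.Div31

/-!
# Sparse terms of divergent trajectories of the 3x+1 map

Let `S` be a finite set of primes which does not contain both `2` and `3`, and `r ≥ 0`. For a real
number `M ≥ 1` an integer is called short if it is a sum of `r` terms `a u`, where the `a` are
integers with `|a| ≤ M` and the `u` are `S`-units (nonzero rational numbers composed of the primes
of `S`). Examples are the integers with at most `r` nonzero digits in a base which is not divisible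
by `6`, the sums and differences of `r` powers of two, and the integers near a multiple of a large
`S`-unit.

(1) The dip theorem: for every `ε > 0` there is `C` such that a trajectory which goes from a short
integer `x` to a short integer `T^j x`, with more than `C (1 + log M)` odd steps, has a term
`|T^i x| ≤ C exp (ε (j + log (1 + |x|)))` with `i < j`.

(2) Let `A, ε > 0`. A trajectory which stays above `C (1 + |x|) ^ ε` for `n ≤ A (1 + log (1 + |x|))`
steps has at most `C (1 + log M)` short odd terms up to then.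

(3) If `|T^k x|` grows at least exponentially then for every `A` the number of the `k` between `n`
and `A n` for which `T^k x` is short and odd is at most `C (1 + log M)` for all large `n`.

(4) Every divergent trajectory has at most `C M ^ (r + 1) n ^ (1 - 1 / (r s + 1))` short odd terms
among its first `n` terms, `s = |S|`; in particular at most `C n ^ (1 - 1 / (r + 1))` odd terms with
at most `r` nonzero digits in base `b`, for every base `b` which is not divisible by `6`.

For `2, 3` in `S` (1) is false: `x = 2 ^ j u - 1`, `T^i x = 3 ^ i 2 ^ (j - i) u - 1`.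

Method. `3^o x + B = 2^j y` with `|B|` smaller than `3^o |x|` by a power of `exp (j + log |x|)` if
the trajectory does not dip. There is no cancellation at the infinite place in sums of `S`-units
with coefficients of small height (`Pool.Agent.TH551.HA`, from the `S`-adic subspace theorem), so
that the sum of the large terms of `3^o x` and of `2^j y` vanishes. In a second scale, where only
the coefficients `a` are negligible, this relation between units contradicts the valuation at `3`
(or `2`), which is not in `S`. This needs that a short integer is a short sum of `S`-units of small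
height, which also bounds the number of short integers.
-/

set_option autoImplicit false

namespace Pool.Agent.Results.MP_ff4775_nt.SparseTerms

open Finset Filter Pool.Agent.U773.SP Pool.Agent.U773.SP.C31

open scoped Classical

theorem result :
    (∀ (S : Finset ℕ) (r : ℕ), (2 ∉ S ∨ 3 ∉ S) →
      (∀ ε : ℝ, 0 < ε → ∃ C : ℝ, 0 < C ∧ ∀ (x : ℤ) (j : ℕ) (M : ℝ), 1 ≤ M →
        Short S r M x → Short S r M (T^[j] x) → C * (1 + Real.log M) < oddTerms x j →
          ∃ i < j, |((T^[i] x : ℤ) : ℝ)| ≤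
            C * Real.exp (ε * (j + Real.log (1 + |(x : ℝ)|)))) ∧
      (∀ A ε : ℝ, 0 < A → 0 < ε → ∃ C : ℝ, 0 < C ∧ ∀ (x : ℤ) (n : ℕ) (M : ℝ), 1 ≤ M →
        (n : ℝ) ≤ A * (1 + Real.log (1 + |(x : ℝ)|)) →
        (∀ i < n, C * (1 + |(x : ℝ)|) ^ ε < |((T^[i] x : ℤ) : ℝ)|) →
        (((range n).filter (fun i => T^[i] x % 2 = 1 ∧ Short S r M (T^[i] x))).card : ℝ) ≤
          C * (1 + Real.log M)) ∧
      (∀ δ A : ℝ, 0 < δ → 1 ≤ A → ∃ C : ℝ, 0 < C ∧ ∀ x : ℤ,
        (∀ᶠ k : ℕ in atTop, Real.exp (δ * k) ≤ |((T^[k] x : ℤ) : ℝ)|) →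
        ∀ᶠ n : ℕ in atTop, ∀ M : ℝ, 1 ≤ M →
          (((Ico n ⌊A * n⌋₊).filter
            (fun k => T^[k] x % 2 = 1 ∧ Short S r M (T^[k] x))).card : ℝ) ≤
            C * (1 + Real.log M)) ∧
      (∃ C : ℝ, 0 < C ∧ ∀ x : ℤ, Divergent x → ∀ (n : ℕ) (M : ℝ), 1 ≤ n → 1 ≤ M →
        (((range n).filter (fun k => T^[k] x % 2 = 1 ∧ Short S r M (T^[k] x))).card : ℝ) ≤
          C * M ^ (r + 1) * (n : ℝ) ^ (((r * S.card : ℕ) : ℝ) / ((r * S.card : ℕ) + 1)))) ∧
    (∀ b r : ℕ, 2 ≤ b → ¬ 6 ∣ b → ∃ C : ℝ, 0 < C ∧ ∀ x : ℤ, Divergent x → ∀ n : ℕ, 1 ≤ n →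
      (((range n).filter (fun k => T^[k] x % 2 = 1 ∧ nonzeroDigits b (T^[k] x) ≤ r)).card : ℝ) ≤
        C * (n : ℝ) ^ ((r : ℝ) / (r + 1))) := by
  refine ⟨fun S r hS => ⟨?_, ?_, ?_, ?_⟩, ?_⟩
  · intro ε hε
    obtain ⟨C, hC, h⟩ := dip31 S r hS ε hε
    exact ⟨C, by linarith, h⟩
  · intro A ε hA hε
    obtain ⟨C, hC, h⟩ := window S r hS (ε / (2 * A + 1)) (by positivity)
    have hexp : 1 ≤ Real.exp ε := Real.one_le_exp hε.le
    refine ⟨C * Real.exp ε, by positivity, ?_⟩
    intro x n M hM hn hbig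
    have hlM : 0 ≤ Real.log M := Real.log_nonneg hM
    obtain ⟨X, hX⟩ : ∃ X : ℝ, X = Real.log (1 + |(x : ℝ)|) := ⟨_, rfl⟩
    have hX0 : 0 ≤ X := by rw [hX]; exact Real.log_nonneg (by linarith [abs_nonneg (x : ℝ)])
    have hpow : (1 + |(x : ℝ)|) ^ ε = Real.exp (ε * X) := by
      rw [Real.rpow_def_of_pos (by positivity), hX, mul_comm]
    have h1 := h x 0 n M hM (fun i _ hi => by
      refine lt_of_le_of_lt ?_ (hbig i hi)
      rw [hpow, mul_assoc, ← Real.exp_add, ← hX]
      apply mul_le_mul_of_nonneg_left _ (by linarith)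
      rw [Real.exp_le_exp, div_mul_eq_mul_div, div_le_iff₀ (by positivity)]
      rw [← hX] at hn
      have e1 : 2 * (n : ℝ) + X ≤ (1 + X) * (2 * A + 1) := by nlinarith
      calc ε * (2 * n + X) ≤ ε * ((1 + X) * (2 * A + 1)) := by gcongr
        _ = _ := by ring)
    rw [← Finset.range_eq_Ico] at h1
    refine (h1.trans ?_)
    apply mul_le_mul_of_nonneg_right _ (by linarith)
    nlinarith
  · intro δ A hδ hA
    obtain ⟨C, hC, h⟩ := window S r hS (δ / (4 * A)) (by positivity)
    refine ⟨C, by linarith, ?_⟩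
    intro x hx
    rw [Filter.eventually_atTop] at hx
    obtain ⟨K, hK⟩ := hx
    obtain ⟨X, hX⟩ : ∃ X : ℝ, X = Real.log (1 + |(x : ℝ)|) := ⟨_, rfl⟩
    have hX0 : 0 ≤ X := by rw [hX]; exact Real.log_nonneg (by linarith [abs_nonneg (x : ℝ)])
    obtain ⟨K', hK'⟩ := exists_nat_gt (2 / δ * (Real.log C + δ / (4 * A) * X))
    filter_upwards [eventually_ge_atTop (max K K')] with n hn M hM
    refine h x n ⌊A * n⌋₊ M hM fun i hi _ => ?_
    have hn1 : K ≤ n := (le_max_left _ _).trans hn
    have hn2 : (K' : ℝ) ≤ n := by exact_mod_cast (le_max_right _ _).trans hn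
    refine lt_of_lt_of_le ?_ (hK i (hn1.trans hi))
    have e1 : ((⌊A * n⌋₊ : ℕ) : ℝ) ≤ A * n := Nat.floor_le (by positivity)
    have e2 : (n : ℝ) ≤ i := by exact_mod_cast hi
    have e3 : 2 / δ * (Real.log C + δ / (4 * A) * X) < n := lt_of_lt_of_le hK' hn2
    rw [div_mul_eq_mul_div, div_lt_iff₀ hδ] at e3
    have e4 : δ / (4 * A) * (2 * ((⌊A * n⌋₊ : ℕ) : ℝ) + X) ≤ δ * n / 2 + δ / (4 * A) * X := by
      calc δ / (4 * A) * (2 * ((⌊A * n⌋₊ : ℕ) : ℝ) + X) ≤ δ / (4 * A) * (2 * (A * n) + X) := by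
            gcongr
        _ = _ := by field_simp; ring
    have hC0 : 0 < C := by linarith
    rw [← hX]
    calc C * Real.exp (δ / (4 * A) * (2 * ((⌊A * n⌋₊ : ℕ) : ℝ) + X))
        = Real.exp (Real.log C + δ / (4 * A) * (2 * ((⌊A * n⌋₊ : ℕ) : ℝ) + X)) := by
          rw [Real.exp_add, Real.exp_log hC0]
      _ < Real.exp (δ * i) := by
          rw [Real.exp_lt_exp]
          nlinarith
  · obtain ⟨C, hC, h⟩ := odd_short S r hS
    exact ⟨C, hC, fun x hx n M hn hM => h x n M hM hn (fun i _ k _ hik => hx.inj hik)⟩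
  · intro b r hb h6
    obtain ⟨C, hC, h⟩ := odd_digits b r hb h6
    exact ⟨C, hC, fun x hx n hn => (card_inst' _ _ _ _).trans_le
      (h x n hn (fun i _ k _ hik => hx.inj hik))⟩

end Pool.Agent.Results.MP_ff4775_nt.SparseTerms
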