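import Pool.Agent.U142.WG7

set_option autoImplicit false

/-!
# Waring's problem with variables in the sets invariant under the 3x+1 map

Let `S 1, …, S s` be sets of integers which are invariant under the 3x+1 map and its inverse, for
instance the set of the integers with a divergent trajectory, or its complement, or the basins of
the cycles. They have natural densities `δ i` among the integers of each sign. We show that for
`s ≥ s₀(k)` among the representations of a large integer `n` as a sum of `s` `k`-th powers of positive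
integers `x i` the proportion of those with `x i ∈ S i` for all `i` is `∏ δ i + o(1)`, uniformly in the
invariant sets, and the same for all diagonal equations `∑ a i P (x i) = m` with a nonconstant
integer polynomial `P`, uniformly in the coefficients `a i ≠ 0` and in `m`.

Proof: circle method. The mean value estimate comes from the energy of the values of polynomials
(starting file `Y834/CD/Poly.lean`), the orthogonality of the balanced indicator functions of the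
invariant sets to all polynomial phases from the Gowers norms (starting file
`Results/MP_2d22f3_nt/GowersNorms.lean`, theorem `poly_orth` of `W36/GV/GV5.lean`). The lower bound of the
right order for the number of all representations (a known theorem) is proved by smoothing along
progressions of a fixed difference, with the inverse theorem for Weyl sums of the starting file
`H373R2/NB/Weyl.lean`.
-/

namespace Pool.Agent.Results.MP_ff4775_nt.WaringWithDivergent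

open Filter Topology Polynomial

/-- The 3x+1 map. -/
def T (x : ℤ) : ℤ := if x % 2 = 0 then x / 2 else (3 * x + 1) / 2

/-- The trajectory of `x` is divergent. -/
def Divergent (x : ℤ) : Prop := Tendsto (fun k : ℕ => |T^[k] x|) atTop atTop

/-- `S` is invariant under the 3x+1 map and its inverse. -/
def Invariant (S : Set ℤ) : Prop := ∀ x : ℤ, x ∈ S ↔ T x ∈ S

/-- Among the integers of sign `s` the set `S` has natural density `δ`. -/
def HasDensity (s : ℤ) (S : Set ℤ) (δ : ℝ) : Prop :=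
  Tendsto (fun N : ℕ => ({n : ℤ | 0 < s * n ∧ s * n ≤ N ∧ n ∈ S}.ncard : ℝ) / N) atTop (𝓝 δ)

/-- The number of `x` with `x 1 ^ k + ⋯ + x s ^ k = n` and positive integers `x i` in `A i`. -/
noncomputable def Reps (k s n : ℕ) (A : Fin s → Set ℕ) : ℕ :=
  {x : Fin s → ℕ | (∀ i, 1 ≤ x i ∧ x i ∈ A i) ∧ ∑ i, x i ^ k = n}.ncard

/-- The number of `x` with `a 1 P (x 1) + ⋯ + a s P (x s) = m` and positive integers `x i ≤ l i` in
`A i`. -/
noncomputable def Solutions (P : ℤ[X]) {s : ℕ} (a : Fin s → ℤ) (l : Fin s → ℕ) (A : Fin s → Set ℕ) (m : ℤ) : ℕ :=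
  {x : Fin s → ℕ | (∀ i, 1 ≤ x i ∧ x i ≤ l i ∧ x i ∈ A i) ∧ ∑ i, a i * P.eval ((x i : ℕ) : ℤ) = m}.ncard

theorem divergent_T (x : ℤ) : Divergent x ↔ Divergent (T x) := by
  unfold Divergent
  have h := tendsto_add_atTop_iff_nat (f := fun k : ℕ => |T^[k] x|) (l := atTop) 1
  rw [← h]
  simp only [Function.iterate_succ_apply]

theorem divergent_inv : Invariant {x | Divergent x} := fun x => divergent_T x

theorem divergent_inv' (p : Prop) : Invariant {x | p → Divergent x} := by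
  intro x
  constructor
  · intro h hp; exact (divergent_T x).1 (h hp)
  · intro h hp; exact (divergent_T x).2 (h hp)

theorem divergent_iff_inv (p : Prop) : Invariant {x | Divergent x ↔ p} := by
  intro x
  constructor
  · intro h; exact (divergent_T x).symm.trans h
  · intro h; exact (divergent_T x).trans h

theorem not_divergent_zero : ¬ Divergent 0 := by
  have h0 : ∀ k : ℕ, T^[k] 0 = 0 := by
    intro k
    induction k with
    | zero => rfl
    | succ k ih => rw [Function.iterate_succ_apply]; exact ih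
  intro h
  unfold Divergent at h
  simp only [h0, abs_zero] at h
  have := h.eventually (eventually_ge_atTop (1 : ℤ))
  obtain ⟨k, hk⟩ := this.exists
  omega

theorem not_divergent_one : ¬ Divergent 1 := by
  have h0 : ∀ k : ℕ, T^[k] 1 = 1 ∨ T^[k] 1 = 2 := by
    intro k
    induction k with
    | zero => left; rfl
    | succ k ih =>
      rw [Function.iterate_succ_apply']
      rcases ih with h | h
      · rw [h]; right; rfl
      · rw [h]; left; rfl
  intro h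
  unfold Divergent at h
  have := h.eventually (eventually_ge_atTop (3 : ℤ))
  obtain ⟨k, hk⟩ := this.exists
  rcases h0 k with h1 | h1 <;> rw [h1] at hk <;> norm_num at hk

theorem not_divergent_neg_one : ¬ Divergent (-1) := by
  have h0 : ∀ k : ℕ, T^[k] (-1) = -1 := by
    intro k
    induction k with
    | zero => rfl
    | succ k ih => rw [Function.iterate_succ_apply']; rw [ih]; rfl
  intro h
  unfold Divergent at h
  have := h.eventually (eventually_ge_atTop (2 : ℤ))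
  obtain ⟨k, hk⟩ := this.exists
  rw [h0 k] at hk
  norm_num at hk

open Pool.Agent.W41 Pool.Agent.H499R2.ND Pool.Agent.H499R2.CO Pool.Agent.W41.FU Pool.Agent.U142.WG

theorem inv_of {S : Set ℤ} (hS : Invariant S) : Inv 1 S := hS

theorem HD_iff {s : ℤ} (hs : s = 1 ∨ s = -1) {S : Set ℤ} (hS : Invariant S) :
    ∃ δ : ℝ, HD s S δ ∧ HasDensity s S δ := by
  obtain ⟨δ, -, -, h⟩ := dens_side (d := 1) odd_one (by norm_num) hs (inv_of hS)
  exact ⟨δ, h, HD_ncard hs h⟩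

theorem HD_of {s : ℤ} (hs : s = 1 ∨ s = -1) {S : Set ℤ} (hS : Invariant S) {δ : ℝ} (h : HasDensity s S δ) :
    HD s S δ := by
  obtain ⟨δ', h1, h2⟩ := HD_iff hs hS
  rw [tendsto_nhds_unique h h2]
  exact h1

theorem dens_mono {s : ℤ} (hs : s = 1 ∨ s = -1) {S S' : Set ℤ} (h : S ⊆ S') {δ δ' : ℝ} (h1 : HasDensity s S δ)
    (h2 : HasDensity s S' δ') : δ ≤ δ' := by
  refine le_of_tendsto_of_tendsto' h1 h2 fun N => ?_
  apply div_le_div_of_nonneg_right _ (Nat.cast_nonneg _)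
  rw [Nat.cast_le]
  apply Set.ncard_le_ncard
  · rintro n ⟨a1, a2, a3⟩
    exact ⟨a1, a2, h a3⟩
  · apply (Set.finite_Icc (-(N : ℤ)) N).subset
    rintro n ⟨a1, a2, -⟩
    rw [Set.mem_Icc]
    rcases hs with rfl | rfl <;> constructor <;> omega

theorem reps_eq (k s n : ℕ) (A : Fin s → Set ℕ) : Reps k s n A = reps k s n A := rfl

theorem sol_eq' (P : ℤ[X]) {s : ℕ} (a : Fin s → ℤ) (l : Fin s → ℕ) (A : Fin s → Set ℕ) (m : ℤ) :
    Solutions P a l A m = sol P a l A m := rfl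

theorem waring_form (k : ℕ) (hk : 1 ≤ k) : ∃ s₀ : ℕ, ∀ s : ℕ, s₀ ≤ s →
    (∃ c : ℝ, 0 < c ∧ ∃ n₀ : ℕ, ∀ n : ℕ, n₀ ≤ n →
      c * (n : ℝ) ^ ((s : ℝ) / k - 1) ≤ Reps k s n (fun _ => Set.univ)) ∧
    (∀ ε : ℝ, 0 < ε → ∃ n₀ : ℕ, ∀ n : ℕ, n₀ ≤ n → 1 ≤ Reps k s n (fun _ => Set.univ) ∧
      ∀ σ : Fin s → ℤ, (∀ i, σ i = 1 ∨ σ i = -1) →
      ∀ S : Fin s → Set ℤ, (∀ i, Invariant (S i)) → ∀ δ : Fin s → ℝ, (∀ i, HasDensity (σ i) (S i) (δ i)) →
      |(Reps k s n (fun i => {x | σ i * (x : ℤ) ∈ S i}) : ℝ) - (∏ i, δ i) * Reps k s n (fun _ => Set.univ)| ≤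
        ε * Reps k s n (fun _ => Set.univ)) := by
  obtain ⟨s₀, H⟩ := waring k hk
  refine ⟨s₀, fun s hs => ⟨(H s hs).1, fun ε hε => ?_⟩⟩
  obtain ⟨n₀, h⟩ := (H s hs).2 ε hε
  exact ⟨n₀, fun n hn => ⟨(h n hn).1, fun σ hσ S hS δ hδ =>
    (h n hn).2 σ hσ S hS δ (fun i => HD_of (hσ i) (hS i) (hδ i))⟩⟩

theorem prod_pos' {s : ℕ} {σ : Fin s → ℤ} (hσ : ∀ i, σ i = 1 ∨ σ i = -1) {S : Fin s → Set ℤ}
    (hS : ∀ i, Invariant (S i)) (hne : ∀ i, ∃ x ∈ S i, 0 < σ i * x) {δ : Fin s → ℝ}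
    (hδ : ∀ i, HasDensity (σ i) (S i) (δ i)) : 0 < ∏ i, δ i := by
  apply Finset.prod_pos
  intro i _
  obtain ⟨x, hx, hx0⟩ := hne i
  exact one_pos (hσ i) (inv_of (hS i)) hx hx0 (HD_of (hσ i) (hS i) (hδ i))

theorem exists_of {k s n : ℕ} {A : Fin s → Set ℕ} (h : (0 : ℝ) < Reps k s n A) :
    ∃ x : Fin s → ℕ, (∀ i, 1 ≤ x i ∧ x i ∈ A i) ∧ ∑ i, x i ^ k = n := by
  have h1 : 0 < Reps k s n A := by exact_mod_cast h
  unfold Reps at h1
  exact (Set.ncard_pos (Set.finite_of_ncard_pos h1)).1 h1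

/-- (A) Let `k ≥ 1` and `s ≥ s₀(k)`. (1) Every large integer `n` has at least `c n ^ (s / k - 1)`
representations `n = x 1 ^ k + ⋯ + x s ^ k` with positive integers `x i` (known). (2) For `n ≥ n₀(k, s, ε)` and
ALL signs `σ i` and invariant sets `S i` the proportion of the representations with `σ i x i ∈ S i` for all
`i` differs by at most `ε` from the product of the densities. (3) If the invariant sets `S i` contain an
integer of sign `σ i`, then every large `n` is a sum of `k`-th powers of positive integers `x i` with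
`σ i x i ∈ S i`. (4) If a positive (negative) integer has a divergent trajectory, then for every large
`n` and every set `I` of indices there is a representation such that the trajectory of `x i` (of
`- x i`) is divergent if `i ∈ I` and not divergent if `i ∉ I`. (5) If for infinitely many `n` there is a set
`I` of indices such that only the proportion `ψ(n) → 0` of the representations of `n` is such that the
trajectories of `x i` (of `- x i`) are divergent for all `i ∈ I`, then no positive (negative) integer has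
a divergent trajectory.
(B) The same as (2) for the number of the solutions of `a 1 P (x 1) + ⋯ + a s P (x s) = m` with
`x i ≤ l i ≤ L`, for all nonzero integers `a i` and all integers `m`, with the error `ε L ^ (s - deg P)` for
`L ≥ L₀(P, s, ε)`, if `s ≥ s₀(P)`.
(C) Reduction of the problem: if for some `k` and `s ≥ s₀(k)` the condition of (5) is satisfied for both
signs, then no integer has a divergent trajectory. -/
theorem result :
    (∀ k : ℕ, 1 ≤ k → ∃ s₀ : ℕ, ∀ s : ℕ, s₀ ≤ s →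
      (∃ c : ℝ, 0 < c ∧ ∃ n₀ : ℕ, ∀ n : ℕ, n₀ ≤ n →
        c * (n : ℝ) ^ ((s : ℝ) / k - 1) ≤ Reps k s n (fun _ => Set.univ)) ∧
      (∀ ε : ℝ, 0 < ε → ∃ n₀ : ℕ, ∀ n : ℕ, n₀ ≤ n → ∀ σ : Fin s → ℤ, (∀ i, σ i = 1 ∨ σ i = -1) →
        ∀ S : Fin s → Set ℤ, (∀ i, Invariant (S i)) → ∀ δ : Fin s → ℝ, (∀ i, HasDensity (σ i) (S i) (δ i)) →
        |(Reps k s n (fun i => {x | σ i * (x : ℤ) ∈ S i}) : ℝ) - (∏ i, δ i) * Reps k s n (fun _ => Set.univ)| ≤
          ε * Reps k s n (fun _ => Set.univ)) ∧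
      (∀ σ : Fin s → ℤ, (∀ i, σ i = 1 ∨ σ i = -1) → ∀ S : Fin s → Set ℤ, (∀ i, Invariant (S i)) →
        (∀ i, ∃ x ∈ S i, 0 < σ i * x) → ∃ n₀ : ℕ, ∀ n : ℕ, n₀ ≤ n →
        ∃ x : Fin s → ℕ, (∀ i, 1 ≤ x i ∧ σ i * (x i : ℤ) ∈ S i) ∧ ∑ i, x i ^ k = n) ∧
      (∀ σ : ℤ, (σ = 1 ∨ σ = -1) → (∃ x : ℤ, 0 < σ * x ∧ Divergent x) → ∃ n₀ : ℕ, ∀ n : ℕ, n₀ ≤ n →
        ∀ I : Finset (Fin s), ∃ x : Fin s → ℕ, (∀ i, 1 ≤ x i ∧ (Divergent (σ * (x i : ℤ)) ↔ i ∈ I)) ∧
          ∑ i, x i ^ k = n) ∧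
      (∀ σ : ℤ, (σ = 1 ∨ σ = -1) → ∀ ψ : ℕ → ℝ, Tendsto ψ atTop (𝓝 0) →
        (∃ᶠ n : ℕ in atTop, ∃ I : Finset (Fin s),
          (Reps k s n (fun i => {x | i ∈ I → Divergent (σ * (x : ℤ))}) : ℝ) ≤ ψ n * Reps k s n (fun _ => Set.univ)) →
        ∀ x : ℤ, 0 < σ * x → ¬ Divergent x)) ∧
    (∀ P : ℤ[X], 1 ≤ P.natDegree → ∃ s₀ : ℕ, ∀ s : ℕ, s₀ ≤ s → ∀ ε : ℝ, 0 < ε → ∃ L₀ : ℕ, ∀ L : ℕ, L₀ ≤ L →
      ∀ l : Fin s → ℕ, (∀ i, l i ≤ L) → ∀ σ : Fin s → ℤ, (∀ i, σ i = 1 ∨ σ i = -1) →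
      ∀ S : Fin s → Set ℤ, (∀ i, Invariant (S i)) → ∀ δ : Fin s → ℝ, (∀ i, HasDensity (σ i) (S i) (δ i)) →
      ∀ a : Fin s → ℤ, (∀ i, a i ≠ 0) → ∀ m : ℤ,
      |(Solutions P a l (fun i => {x | σ i * (x : ℤ) ∈ S i}) m : ℝ) -
        (∏ i, δ i) * Solutions P a l (fun _ => Set.univ) m| ≤ ε * (L : ℝ) ^ s / (L : ℝ) ^ P.natDegree) ∧
    (∀ k : ℕ, 1 ≤ k → ∃ s₀ : ℕ, ∀ s : ℕ, s₀ ≤ s → ∀ ψ : ℕ → ℝ, Tendsto ψ atTop (𝓝 0) →
      (∀ σ : ℤ, (σ = 1 ∨ σ = -1) → ∃ᶠ n : ℕ in atTop, ∃ I : Finset (Fin s),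
        (Reps k s n (fun i => {x | i ∈ I → Divergent (σ * (x : ℤ))}) : ℝ) ≤ ψ n * Reps k s n (fun _ => Set.univ)) →
      ∀ x : ℤ, ¬ Divergent x) := by
  have crit : ∀ k : ℕ, ∀ s : ℕ,
      (∀ ε : ℝ, 0 < ε → ∃ n₀ : ℕ, ∀ n : ℕ, n₀ ≤ n → 1 ≤ Reps k s n (fun _ => Set.univ) ∧
        ∀ σ : Fin s → ℤ, (∀ i, σ i = 1 ∨ σ i = -1) →
        ∀ S : Fin s → Set ℤ, (∀ i, Invariant (S i)) → ∀ δ : Fin s → ℝ, (∀ i, HasDensity (σ i) (S i) (δ i)) →
        |(Reps k s n (fun i => {x | σ i * (x : ℤ) ∈ S i}) : ℝ) - (∏ i, δ i) * Reps k s n (fun _ => Set.univ)| ≤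
          ε * Reps k s n (fun _ => Set.univ)) →
      ∀ σ : ℤ, (σ = 1 ∨ σ = -1) → ∀ ψ : ℕ → ℝ, Tendsto ψ atTop (𝓝 0) →
        (∃ᶠ n : ℕ in atTop, ∃ I : Finset (Fin s),
          (Reps k s n (fun i => {x | i ∈ I → Divergent (σ * (x : ℤ))}) : ℝ) ≤ ψ n * Reps k s n (fun _ => Set.univ)) →
        ∀ x : ℤ, 0 < σ * x → ¬ Divergent x := by
    intro k s H σ hσ ψ hψ hf x hx hdiv
    obtain ⟨δ, h1, h2⟩ := HD_iff hσ divergent_inv
    have hδ0 : 0 < δ := one_pos hσ (inv_of divergent_inv) hdiv hx h1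
    obtain ⟨n₀, h⟩ := H (δ ^ s / 2) (by positivity)
    have hev := hψ.eventually (gt_mem_nhds (show (0 : ℝ) < δ ^ s / 2 by positivity))
    obtain ⟨n, ⟨I, hI⟩, hn1, hn2⟩ := (hf.and_eventually (hev.and (eventually_ge_atTop n₀))).exists
    obtain ⟨hR1, hmain⟩ := h n hn2
    choose d hd1 hd2 using fun i : Fin s => HD_iff hσ (divergent_inv' (i ∈ I))
    have h3 := hmain (fun _ => σ) (fun _ => hσ) (fun i => {x | i ∈ I → Divergent x}) (fun i => divergent_inv' (i ∈ I)) d hd2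
    have h4 : δ ^ s ≤ ∏ i, d i := by
      calc δ ^ s = ∏ _i : Fin s, δ := by simp
        _ ≤ ∏ i, d i := Finset.prod_le_prod (fun _ _ => hδ0.le) (fun i _ =>
            dens_mono hσ (fun z hz _ => hz) h2 (hd2 i))
    have hR0 : (0 : ℝ) < Reps k s n (fun _ => Set.univ) := by exact_mod_cast hR1
    have h5 := (abs_le.1 h3).1
    have h6 : (Reps k s n (fun i => {x | i ∈ I → Divergent (σ * (x : ℤ))}) : ℝ) =
      Reps k s n (fun i => {x : ℕ | σ * (x : ℤ) ∈ {x | i ∈ I → Divergent x}}) := rfl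
    rw [h6] at hI
    have h7 : δ ^ s * Reps k s n (fun _ => Set.univ) ≤ (∏ i, d i) * Reps k s n (fun _ => Set.univ) :=
      mul_le_mul_of_nonneg_right h4 hR0.le
    have h8 : ψ n * Reps k s n (fun _ => Set.univ) < δ ^ s / 2 * Reps k s n (fun _ => Set.univ) :=
      mul_lt_mul_of_pos_right hn1 hR0
    linarith
  have ex : ∀ k : ℕ, ∀ s : ℕ,
      (∀ ε : ℝ, 0 < ε → ∃ n₀ : ℕ, ∀ n : ℕ, n₀ ≤ n → 1 ≤ Reps k s n (fun _ => Set.univ) ∧
        ∀ σ : Fin s → ℤ, (∀ i, σ i = 1 ∨ σ i = -1) →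
        ∀ S : Fin s → Set ℤ, (∀ i, Invariant (S i)) → ∀ δ : Fin s → ℝ, (∀ i, HasDensity (σ i) (S i) (δ i)) →
        |(Reps k s n (fun i => {x | σ i * (x : ℤ) ∈ S i}) : ℝ) - (∏ i, δ i) * Reps k s n (fun _ => Set.univ)| ≤
          ε * Reps k s n (fun _ => Set.univ)) →
      ∀ σ : Fin s → ℤ, (∀ i, σ i = 1 ∨ σ i = -1) → ∀ S : Fin s → Set ℤ, (∀ i, Invariant (S i)) →
        (∀ i, ∃ x ∈ S i, 0 < σ i * x) → ∃ n₀ : ℕ, ∀ n : ℕ, n₀ ≤ n →
        ∃ x : Fin s → ℕ, (∀ i, 1 ≤ x i ∧ σ i * (x i : ℤ) ∈ S i) ∧ ∑ i, x i ^ k = n := by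
    intro k s H σ hσ S hS hne
    choose δ hd1 hd2 using fun i : Fin s => HD_iff (hσ i) (hS i)
    have hpos := prod_pos' hσ hS hne hd2
    obtain ⟨n₀, h⟩ := H ((∏ i, δ i) / 2) (by positivity)
    refine ⟨n₀, fun n hn => ?_⟩
    obtain ⟨hR1, hmain⟩ := h n hn
    have hR0 : (0 : ℝ) < Reps k s n (fun _ => Set.univ) := by exact_mod_cast hR1
    have h3 := (abs_le.1 (hmain σ hσ S hS δ hd2)).1
    have h4 : (0 : ℝ) < (∏ i, δ i) / 2 * Reps k s n (fun _ => Set.univ) := by positivity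
    have h5 : (0 : ℝ) < Reps k s n (fun i => {x | σ i * (x : ℤ) ∈ S i}) := by linarith
    obtain ⟨x, hx1, hx2⟩ := exists_of h5
    exact ⟨x, hx1, hx2⟩
  refine ⟨fun k hk => ?_, fun P hP => ?_, fun k hk => ?_⟩
  · obtain ⟨s₀, H⟩ := waring_form k hk
    refine ⟨s₀, fun s hs => ⟨(H s hs).1, fun ε hε => ?_, ex k s (H s hs).2, ?_, crit k s (H s hs).2⟩⟩
    · obtain ⟨n₀, h⟩ := (H s hs).2 ε hε
      exact ⟨n₀, fun n hn => (h n hn).2⟩
    · intro σ hσ hdiv
      have key : ∀ I : Finset (Fin s), ∃ n₀ : ℕ, ∀ n : ℕ, n₀ ≤ n →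
          ∃ x : Fin s → ℕ, (∀ i, 1 ≤ x i ∧ (Divergent (σ * (x i : ℤ)) ↔ i ∈ I)) ∧ ∑ i, x i ^ k = n := by
        intro I
        exact ex k s (H s hs).2 (fun _ => σ) (fun _ => hσ) (fun i => {x | Divergent x ↔ i ∈ I})
          (fun i => divergent_iff_inv (i ∈ I)) (by
            intro i
            obtain ⟨y, hy, hyd⟩ := hdiv
            by_cases hi : i ∈ I
            · exact ⟨y, ⟨fun _ => hi, fun _ => hyd⟩, hy⟩
            · rcases hσ with rfl | rfl
              · exact ⟨1, ⟨fun h => absurd h not_divergent_one, fun h => absurd h hi⟩, by norm_num⟩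
              · exact ⟨-1, ⟨fun h => absurd h not_divergent_neg_one, fun h => absurd h hi⟩, by norm_num⟩)
      choose f hf using key
      refine ⟨∑ I, f I, fun n hn I => hf I n ?_⟩
      exact (Finset.single_le_sum (f := f) (fun _ _ => Nat.zero_le _) (Finset.mem_univ I)).trans hn
  · obtain ⟨s₀, H⟩ := inv_diag P hP
    refine ⟨s₀, fun s hs ε hε => ?_⟩
    obtain ⟨L₀, h⟩ := H s hs ε hε
    refine ⟨L₀ + 1, fun L hL l hl σ hσ S hS δ hδ a ha m => ?_⟩
    have hL0 : (0 : ℝ) < L := by exact_mod_cast (by omega : 0 < L)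
    rw [le_div_iff₀ (by positivity)]
    exact h L (by omega) l hl σ hσ S hS δ (fun i => HD_of (hσ i) (hS i) (hδ i)) a ha m
  · obtain ⟨s₀, H⟩ := waring_form k hk
    refine ⟨s₀, fun s hs ψ hψ hf x => ?_⟩
    rcases lt_trichotomy x 0 with hx | hx | hx
    · exact crit k s (H s hs).2 (-1) (Or.inr rfl) ψ hψ (hf (-1) (Or.inr rfl)) x (by omega)
    · rw [hx]; exact not_divergent_zero
    · exact crit k s (H s hs).2 1 (Or.inl rfl) ψ hψ (hf 1 (Or.inl rfl)) x (by omega)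

end Pool.Agent.Results.MP_ff4775_nt.WaringWithDivergent
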